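import Pool.Agent.Helper74.FP.Goals

/-!
# Packet F4 of project FP: minors of free products
-/

set_option autoImplicit false

namespace Pool.Agent.Helper84.FP

open Pool.Agent.Helper52.Wq2 Pool.Agent.Helper74.FP Monoid Monoid.CoprodI

universe u

section word

variable {ι : Type} {M : ι → Type u} [∀ i, Group (M i)]

theorem prod_inj {w w' : Word M} (h : w.prod = w'.prod) : w = w' := by
  classical
  exact Word.equiv.symm.injective h

theorem uniq {i : ι} {a a' : M i} {w w' : Word M} (h : w.fstIdx ≠ some i)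
    (h' : w'.fstIdx ≠ some i) (e : of a * w.prod = of a' * w'.prod) : a = a' ∧ w = w' := by
  classical
  rw [← Word.prod_rcons ⟨a, w, h⟩, ← Word.prod_rcons ⟨a', w', h'⟩] at e
  have e2 := Word.rcons_inj (prod_inj e)
  injection e2 with e3 e4
  exact ⟨e3, e4⟩

theorem dec (i : ι) (g : CoprodI M) : ∃ (a : M i) (w : Word M), w.fstIdx ≠ some i ∧
    g = of a * w.prod := by
  classical
  obtain ⟨w0, rfl⟩ : ∃ w0 : Word M, w0.prod = g := Word.equiv.symm.surjective g
  refine ⟨(Word.equivPair i w0).head, (Word.equivPair i w0).tail,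
    (Word.equivPair i w0).fstIdx_ne, ?_⟩
  rw [← Word.prod_rcons, ← Word.equivPair_symm, Equiv.symm_apply_apply]

theorem fst_prod {i j : ι} {a : M i} {b : M j} {w w' : Word M} (h : w.fstIdx ≠ some i)
    (h' : w'.fstIdx ≠ some j) (ha : a ≠ 1) (hb : b ≠ 1) (e : of a * w.prod = of b * w'.prod) :
    i = j := by
  rw [← Word.prod_cons i a w ha h, ← Word.prod_cons j b w' hb h'] at e
  have e2 := congrArg Word.fstIdx (prod_inj e)
  rw [Word.fstIdx_cons, Word.fstIdx_cons] at e2
  exact Option.some.inj e2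

end word

section core

variable {ι : Type} {A B : ι → Type u} [∀ i, Group (A i)] [∀ i, Group (B i)]
  {V : ∀ i, A i → Set (B i)} {r : ∀ i, A i → B i}

structure Rr (V : ∀ i, A i → Set (B i)) (r : ∀ i, A i → B i) : Prop where
  mem : ∀ i a, r i a ∈ V i a
  one : ∀ i, r i 1 = 1
  disj : ∀ i a a' x, x ∈ V i a → x ∈ V i a' → a = a'

theorem Rr.inj (R : Rr V r) {i : ι} {a a' : A i} (h : r i a = r i a') : a = a' :=
  R.disj i a a' (r i a) (R.mem i a) (h ▸ R.mem i a')

/-- The map on words. -/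
def ff (R : Rr V r) (w : Word A) : Word B where
  toList := w.toList.map (fun l => ⟨l.1, r l.1 l.2⟩)
  ne_one := by
    intro l hl
    rw [List.mem_map] at hl
    obtain ⟨l', hl', rfl⟩ := hl
    intro h1
    refine w.ne_one l' hl' (R.inj (i := l'.1) ?_)
    rw [R.one]
    exact h1
  chain_ne := by
    rw [List.isChain_map]
    exact w.chain_ne

theorem ff_inj (R : Rr V r) {w w' : Word A} (h : ff R w = ff R w') : w = w' := by
  have h1 := congrArg Word.toList h
  have h2 : Function.Injective (fun l : (Σ i, A i) => (⟨l.1, r l.1 l.2⟩ : Σ i, B i)) := by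
    rintro ⟨i, a⟩ ⟨j, b⟩ e
    simp only [Sigma.mk.injEq] at e
    obtain ⟨rfl, e⟩ := e
    rw [R.inj (eq_of_heq e)]
  exact Word.ext (List.map_injective_iff.2 h2 h1)

theorem ff_fst (R : Rr V r) (w : Word A) : (ff R w).fstIdx = w.fstIdx := by
  unfold Word.fstIdx ff
  simp only [List.head?_map, Option.map_map]
  rfl

theorem ff_dec (R : Rr V r) {i : ι} {a : A i} {w w0 : Word A} (h : w.fstIdx ≠ some i)
    (e : w0.prod = of a * w.prod) : (ff R w0).prod = of (r i a) * (ff R w).prod := by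
  by_cases ha : a = 1
  · subst ha
    rw [map_one, one_mul] at e
    rw [prod_inj e, R.one, map_one, one_mul]
  · rw [← Word.prod_cons i a w ha h] at e
    rw [prod_inj e]
    have hr : r i a ≠ 1 := fun h1 => ha (R.inj (h1.trans (R.one i).symm))
    rw [← Word.prod_cons i (r i a) (ff R w) hr (by rw [ff_fst]; exact h)]
    congr 1

/-- Parts of the branch sets. -/
def part (R : Rr V r) (i : ι) (g : CoprodI A) : Set (CoprodI B) :=
  {x | ∃ (a : A i) (w : Word A) (b : B i), w.fstIdx ≠ some i ∧ g = of a * w.prod ∧ b ∈ V i a ∧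
    x = of b * (ff R w).prod}

theorem same (R : Rr V r) {i : ι} {g g' : CoprodI A} {x : CoprodI B} (h : x ∈ part R i g)
    (h' : x ∈ part R i g') : g = g' := by
  obtain ⟨a, w, b, h1, rfl, h2, h3⟩ := h
  obtain ⟨a', w', b', h1', rfl, h2', h3'⟩ := h'
  obtain ⟨e1, e2⟩ := uniq (by rw [ff_fst]; exact h1) (by rw [ff_fst]; exact h1') (h3.symm.trans h3')
  subst e1
  rw [ff_inj R e2, R.disj i a a' b h2 h2']

theorem root (R : Rr V r) (i : ι) (w : Word A) : (ff R w).prod ∈ part R i w.prod := by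
  obtain ⟨a, w', h1, h2⟩ := dec i w.prod
  exact ⟨a, w', r i a, h1, h2, R.mem i a, ff_dec R h1 h2⟩

theorem diff (R : Rr V r) (hV : ∀ i, (1 : B i) ∈ V i 1) {i j : ι} {g g' : CoprodI A}
    {x : CoprodI B} (h : x ∈ part R i g) (h' : x ∈ part R j g') : g = g' := by
  obtain ⟨a, w, b, h1, rfl, h2, h3⟩ := id h
  obtain ⟨a', w', b', h1', rfl, h2', h3'⟩ := id h'
  by_cases hb : b = 1
  · subst hb
    have e1 := R.disj i a 1 1 h2 (hV i)
    subst e1
    rw [map_one, one_mul] at h3 h ⊢
    rw [h3] at h'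
    exact same R (root R j w) h'
  · by_cases hb' : b' = 1
    · subst hb'
      have e1 := R.disj j a' 1 1 h2' (hV j)
      subst e1
      rw [map_one, one_mul] at h3' h' ⊢
      rw [h3'] at h
      exact same R h (root R i w')
    · have e := fst_prod (by rw [ff_fst]; exact h1) (by rw [ff_fst]; exact h1') hb hb'
        (h3.symm.trans h3')
      subst e
      exact same R h h'

theorem adjL {Γ : Type u} [Group Γ] (S : Set Γ) (a b : Γ) :
    (cayL S).Adj a b ↔ a ≠ b ∧ (b * a⁻¹ ∈ S ∨ a * b⁻¹ ∈ S) := by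
  unfold cayL
  rw [SimpleGraph.fromRel_adj]

theorem adj_of {T : ∀ i, Set (B i)} {i : ι} {x y : B i} (h : (cayL (T i)).Adj x y)
    (z : CoprodI B) : (cayL (US T)).Adj (of x * z) (of y * z) := by
  rw [adjL] at h ⊢
  refine ⟨fun e => h.1 (of_injective i (mul_right_cancel e)), ?_⟩
  have e : ∀ x y : B i, of y * z * (of x * z)⁻¹ = of (y * x⁻¹) := by
    intro x y
    rw [mul_inv_rev, map_mul, map_inv]
    simp only [mul_assoc, mul_inv_cancel_left]
  rw [e, e]
  exact h.2.imp (fun h => ⟨i, _, h, rfl⟩) (fun h => ⟨i, _, h, rfl⟩)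

end core

/-- Attaching connected sets to a connected set. -/
theorem conn_attach {V ι : Type*} {G : SimpleGraph V} {R : Set V} (hR : Conn G R) (P : ι → Set V)
    (hP : ∀ i, Conn G (P i)) (h : ∀ i, (P i ∩ R).Nonempty) : Conn G (R ∪ ⋃ i, P i) := by
  refine ⟨hR.1.mono Set.subset_union_left, ?_⟩
  intro A hA hne hcl
  have full : ∀ C : Set V, Conn G C → C ⊆ R ∪ ⋃ i, P i → (A ∩ C).Nonempty → C ⊆ A := by
    intro C hC hCs hn x hx
    exact (hC.2 (A ∩ C) Set.inter_subset_right hn
      (fun y hy z hz hyz => ⟨hcl y hy.1 z (hCs hz) hyz, hz⟩) hx).1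
  have hPs : ∀ i, P i ⊆ R ∪ ⋃ i, P i := fun i => (Set.subset_iUnion P i).trans
    Set.subset_union_right
  have hRA : R ⊆ A := by
    obtain ⟨x, hx⟩ := hne
    rcases hA hx with h1 | h1
    · exact full R hR Set.subset_union_left ⟨x, hx, h1⟩
    · obtain ⟨i, hi⟩ := Set.mem_iUnion.1 h1
      have h2 := full (P i) (hP i) (hPs i) ⟨x, hx, hi⟩
      obtain ⟨y, hy1, hy2⟩ := h i
      exact full R hR Set.subset_union_left ⟨y, h2 hy1, hy2⟩
  rintro x (hx | hx)
  · exact hRA hx
  · obtain ⟨i, hi⟩ := Set.mem_iUnion.1 hx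
    obtain ⟨y, hy1, hy2⟩ := h i
    exact full (P i) (hP i) (hPs i) ⟨y, hRA hy2, hy1⟩ hi

theorem f4 : F4Stmt.{u} := by
  intro ι A B _ _ S T V hS hT hM hV
  have hex : ∃ r : ∀ i, A i → B i, Rr V r := by
    classical
    have h1 : ∀ i a, ∃ x, x ∈ V i a := fun i a => ((hM i).1 a).1
    choose r0 hr0 using h1
    refine ⟨fun i a => if a = 1 then 1 else r0 i a, ⟨?_, ?_, ?_⟩⟩
    · intro i a
      by_cases ha : a = 1
      · subst ha; rw [if_pos rfl]; exact hV i
      · rw [if_neg ha]; exact hr0 i a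
    · intro i
      simp
    · intro i a a' x h1 h2
      exact (hM i).2.1 a a' x h1 h2
  obtain ⟨r, R⟩ := hex
  have hw : ∀ g : CoprodI A, ∃ w : Word A, w.prod = g := by
    classical
    exact Word.equiv.symm.surjective
  choose wd hwd using hw
  refine ⟨fun g => {(ff R (wd g)).prod} ∪ ⋃ i, part R i g, ?_, ?_, ?_⟩
  · intro g
    refine conn_attach (conn_singleton _ _) _ ?_ ?_
    · intro i
      obtain ⟨a, w, h1, h2⟩ := dec i g
      have e : part R i g = (fun b => of b * (ff R w).prod) '' V i a := by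
        ext x
        constructor
        · rintro ⟨a', w', b, h1', h2', h3, rfl⟩
          obtain ⟨e1, e2⟩ := uniq h1 h1' (h2.symm.trans h2')
          subst e1 e2
          exact ⟨b, h3, rfl⟩
        · rintro ⟨b, h3, rfl⟩
          exact ⟨a, w, b, h1, h2, h3, rfl⟩
      rw [e]
      exact ((hM i).1 a).image _ (fun x _ y _ hxy => Or.inr (adj_of hxy _))
    · intro i
      refine ⟨_, ?_, rfl⟩
      have := root R i (wd g)
      rwa [hwd] at this
  · rintro g g' x (hx | hx) (hx' | hx')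
    · rw [Set.mem_singleton_iff] at hx hx'
      have := ff_inj R (prod_inj (hx.symm.trans hx'))
      rw [← hwd g, ← hwd g', this]
    · obtain ⟨i, hi⟩ := Set.mem_iUnion.1 hx'
      rw [Set.mem_singleton_iff] at hx
      subst hx
      have := same R (root R i (wd g)) hi
      rwa [hwd] at this
    · obtain ⟨i, hi⟩ := Set.mem_iUnion.1 hx
      rw [Set.mem_singleton_iff] at hx'
      subst hx'
      have := same R hi (root R i (wd g'))
      rwa [hwd] at this
    · obtain ⟨i, hi⟩ := Set.mem_iUnion.1 hx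
      obtain ⟨j, hj⟩ := Set.mem_iUnion.1 hx'
      exact diff R hV hi hj
  · have main : ∀ (g : CoprodI A) (i : ι) (s : A i), s ∈ S i →
        ∃ x ∈ part R i g, ∃ y ∈ part R i (of s * g), (cayL (US T)).Adj x y := by
      intro g i s hs
      obtain ⟨a, w, h1, h2⟩ := dec i g
      have hadj : (cayL (S i)).Adj a (s * a) := by
        rw [adjL]
        refine ⟨fun e => ?_, Or.inl (by rwa [mul_inv_cancel_right])⟩
        have : s = 1 := right_eq_mul.1 e
        exact (hS i).2.2 (this ▸ hs)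
      obtain ⟨x, hx, y, hy, hxy⟩ := (hM i).2.2 _ _ hadj
      refine ⟨_, ⟨a, w, x, h1, h2, hx, rfl⟩, _, ⟨s * a, w, y, h1, ?_, hy, rfl⟩, adj_of hxy _⟩
      rw [h2, map_mul, mul_assoc]
    intro g g' hgg
    rw [adjL] at hgg
    rcases hgg.2 with ⟨i, s, hs, h1⟩ | ⟨i, s, hs, h1⟩
    · have h2 : g' = of s * g := by rw [← h1, inv_mul_cancel_right]
      obtain ⟨x, hx, y, hy, hxy⟩ := main g i s hs
      rw [← h2] at hy
      exact ⟨x, Or.inr (Set.mem_iUnion.2 ⟨i, hx⟩), y, Or.inr (Set.mem_iUnion.2 ⟨i, hy⟩), hxy⟩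
    · have h2 : g = of s * g' := by rw [← h1, inv_mul_cancel_right]
      obtain ⟨x, hx, y, hy, hxy⟩ := main g' i s hs
      rw [← h2] at hy
      exact ⟨y, Or.inr (Set.mem_iUnion.2 ⟨i, hy⟩), x, Or.inr (Set.mem_iUnion.2 ⟨i, hx⟩), hxy.symm⟩

end Pool.Agent.Helper84.FP
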