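import Pool.Agent.Helper74.FP.Goals

/-!
# Packet F5 of project FP: free factors
-/

set_option autoImplicit false

namespace Pool.Agent.Helper84.FP

open Pool.Agent.Helper52.Wq2 Pool.Agent.Helper74.FP Monoid Monoid.CoprodI

universe u

theorem f5 : F5Stmt.{u} := by
  classical
  intro ι κ f B _ T hf
  obtain ⟨ψk, hψ⟩ : ∃ ψk : ∀ k, B k →* CoprodI (fun i => B (f i)),
      ∀ i (b : B (f i)), ψk (f i) b = of (i := i) b := by
    refine ⟨fun k => if h : ∃ i, f i = k then
      (h.choose_spec ▸ (of (M := fun i => B (f i)) (i := h.choose))) else 1, ?_⟩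
    intro i b
    have h : ∃ j, f j = f i := ⟨i, rfl⟩
    simp only [dif_pos h]
    have key : ∀ (j : ι) (e : f j = f i), ((e ▸ (of (M := fun i => B (f i)) (i := j)) :
        B (f i) →* CoprodI (fun i => B (f i))) b) = of (i := i) b := by
      intro j e
      obtain rfl := hf e
      rfl
    exact key h.choose h.choose_spec
  let φ : CoprodI (fun i => B (f i)) →* CoprodI B := CoprodI.lift (fun i => of (i := f i))
  let ψ : CoprodI B →* CoprodI (fun i => B (f i)) := CoprodI.lift ψk
  have hφ : ∀ i (b : B (f i)), φ (of (i := i) b) = of (i := f i) b := fun i b =>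
    CoprodI.lift_of _ _
  have hcomp : ψ.comp φ = MonoidHom.id _ := by
    refine CoprodI.ext_hom _ _ (fun i => ?_)
    ext b
    have e1 : φ (of (M := fun i => B (f i)) (i := i) b) = of (M := B) (i := f i) b := hφ i b
    have e2 : ψ (of (M := B) (i := f i) b) = of (M := fun i => B (f i)) (i := i) b :=
      (CoprodI.lift_of _ _).trans (hψ i b)
    exact (congrArg ψ e1).trans e2
  have hinj : Function.Injective φ := by
    intro a b hab
    have := congrArg ψ hab
    have h1 : ∀ x, ψ (φ x) = x := fun x => congrArg (fun g => g x) hcomp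
    rwa [h1, h1] at this
  refine Mn.of_inj φ hinj ?_
  intro a b hab
  unfold cay at hab ⊢
  rw [SimpleGraph.fromRel_adj] at hab ⊢
  refine ⟨fun e => hab.1 (hinj e), ?_⟩
  have key : ∀ a b, a⁻¹ * b ∈ US (A := fun i => B (f i)) (fun i => T (f i)) →
      (φ a)⁻¹ * φ b ∈ US T := by
    rintro a b ⟨i, s, hs, h1⟩
    refine ⟨f i, s, hs, ?_⟩
    rw [← map_inv, ← map_mul, h1]
    exact hφ i s
  exact hab.2.imp (key a b) (key b a)

end Pool.Agent.Helper84.FP
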