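import Pool.Agent.Helper91.FP.Omega

/-!
# Project FQ (MP_43a2f8_nt): all fixed points are bounded by omega, and they are very rare

`a n = ∑_{d ∣ n, d < n} d τ(d)`, `G p k = ∑_{j ≤ k} (j+1) p^j`, `F n = ∏ G p k` (`Helper91/FP`:
`prod_eq`, `card_prod`, `size_all`, `G_closed`, `G_lower`, `not_pow`, `decomp` are useful).
Notation in the proofs: `n` a fixed point, `S = n.primeFactors`, `k p = n.factorization p`,
`T = n.divisors.card = ∏ (k p + 1)`, `N = T + 1`, `R = S.card`, so `∏_S G p (k p) = N n`.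

Every goal is independent of the others (the goals it needs are hypotheses, as stated in its
doc-string). Deliver `Pool/Agent/<Seat>/FQ/XXX.lean`.
-/

set_option autoImplicit false

namespace Pool.Agent.Helper84.FP

open Finset Pool.Agent.Helper91.FP

/-- The number of prime factors with multiplicity. -/
def Om (n : ℕ) : ℕ := ∑ p ∈ n.primeFactors, n.factorization p

/-- SIZ. Deliver `theorem t : S_SIZ`.
Proof. `2 ≤ R`: `n ≠ 1` (`a 1 = 0`), and `n` is not a prime power (`not_pow`, `eq_pow` in Omega). `T < 2 p`: by `size_all`,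
`k τ(n/p^k) < p`, and `T = (k+1) τ(n/p^k) ≤ 2 k τ(n/p^k)` (`decomp`, `card_mul`, `card_div_pow`; see `sqf_size` in Cycle for the pattern). `2^R ≤ T`: `T = ∏ (k p + 1)`, each factor `≥ 2`.
`T ≤ 2^Om`: `k + 1 ≤ 2^k`. `T^Om = ∏ T^(k p) < ∏ (2 p)^(k p) = 2^Om n` (strict since `S` is nonempty and `k p ≥ 1`). -/
def S_SIZ : Prop := ∀ n : ℕ, 0 < n → a n = n →
  2 ≤ n.primeFactors.card ∧ (∀ p ∈ n.primeFactors, n.divisors.card < 2 * p) ∧
  2 ^ n.primeFactors.card ≤ n.divisors.card ∧ n.divisors.card ≤ 2 ^ Om n ∧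
  n.divisors.card ^ Om n < 2 ^ Om n * n

/-! ## Part A: `n` is bounded in terms of the number of its prime factors -/

/-- The product of the denominators: exact denominators `p^k` for `p ∈ E`, limit denominators
`(p-1)^2` for `p ∈ L`. -/
def W (k : ℕ → ℕ) (E L : Finset ℕ) : ℕ := (∏ p ∈ E, p ^ k p) * ∏ p ∈ L, (p - 1) ^ 2

/-- GAP. Deliver `theorem t : S_GAP`.
Proof (work in `ℚ`). For `p ∈ S` put `e p = G p (k p) / p^(k p)` (so `∏_S e = N`), `f p = ((k+1) p^2 - (k+2) p)/(p-1)^2`. By `G_closed`, `e p = f p + 1/(p^k (p-1)^2)`.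
Also `0 < f p` (`(k+1) p > k+2`), `k + 1 < e p` (`G_lower`), and `(p-1) G p k = (k+1) p^(k+1) - ∑_{j≤k} p^j` gives `(p-1)(G - (k+1) p^k) ≤ (k+1) p^k ≤ G`, that is
`1 - (k+1)/e p ≤ 1/(p-1)`. Let `U = S \ (E ∪ L)`, `w = W k E L`, `V = N * S.card * w > 0` and `ρ = N - ∏_E e * ∏_L f * ∏_U (k+1)`. Then `ρ * w` is an integer (`e p * p^k = G p k`,
`f p (p-1)^2` and `k + 1` are integers), and `ρ > 0` since `N = ∏_S e`, `f < e`, `k + 1 < e` and `L ∪ U` is nonempty (`E ≠ S`). So `ρ w ≥ 1`. Assume that the conclusion fails: then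
`p^k (p-1)^2 > V` for `p ∈ L` and `p - 1 > V` for `p ∈ U`. `ρ = N (1 - ∏_L (1 - x_p) ∏_U (1 - x_p)) ≤ N ∑_{L ∪ U} x_p` with `x_p = 1 - f/e = 1/(p^k (p-1)^2 e) < 1/V` for `p ∈ L` and
`x_p = 1 - (k+1)/e ≤ 1/(p-1) < 1/V` for `p ∈ U` (`0 ≤ x_p ≤ 1`; `1 - ∏ (1 - x) ≤ ∑ x`: `Finset.one_sub_sum_le_prod_one_sub` or induction). Hence `ρ < N * card S / V = 1/w`, contradiction. -/
def S_GAP : Prop := ∀ (S E L : Finset ℕ) (k : ℕ → ℕ) (N : ℕ),
  (∀ p ∈ S, 2 ≤ p) → (∀ p ∈ S, 1 ≤ k p) → ∏ p ∈ S, G p (k p) = N * ∏ p ∈ S, p ^ k p →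
  E ⊆ S → L ⊆ S → Disjoint E L → E ≠ S →
  (∃ p ∈ L, p ^ k p * (p - 1) ^ 2 ≤ N * S.card * W k E L) ∨
    ∃ p ∈ S \ (E ∪ L), p - 1 ≤ N * S.card * W k E L

/-- CHA. Deliver `theorem t : S_GAP → S_CHA`.
Proof. Show for all disjoint `E, L ⊆ S`, by strong induction on `2 u + l`, `u = card (S \ (E ∪ L))`, `l = card L`, that `N * card S * ∏_S p^k ≤ (N * card S * W k E L)^(6^u * 2^l)`; the goal is
`E = L = ∅`. If `E = S` then `L = ∅`, `u = l = 0`, equality. Otherwise let `V = N * card S * W k E L`, which is positive (`N > 0` because `∏ G > 0`; `S` is nonempty). By GAP either (1) there is `p ∈ L`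
with `p^k (p-1)^2 ≤ V`: take `E' = insert p E`, `L' = L.erase p`: `V' ≤ V * p^k ≤ V^2` and `V'^(6^u 2^(l-1)) ≤ V^(6^u 2^l)`; or (2) there is `p ∈ S \ (E ∪ L)` with `p - 1 ≤ V`: take `L' = insert p L`:
`V' = V (p-1)^2 ≤ V^3` and `V'^(6^(u-1) 2^(l+1)) ≤ V^(3 * 6^(u-1) * 2^(l+1)) = V^(6^u 2^l)`. -/
def S_CHA : Prop := ∀ (S : Finset ℕ) (k : ℕ → ℕ) (N : ℕ),
  (∀ p ∈ S, 2 ≤ p) → (∀ p ∈ S, 1 ≤ k p) → ∏ p ∈ S, G p (k p) = N * ∏ p ∈ S, p ^ k p →
  N * S.card * ∏ p ∈ S, p ^ k p ≤ (N * S.card) ^ 6 ^ S.card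

/-- AAA. Deliver `theorem t : S_SIZ → S_CHA → S_AAA`.
Proof. `T ≥ 2^R ≥ 4` and `2 R ≤ 2^R ≤ T`, so `N R = (T+1) R ≤ (T+1) T / 2 ≤ T^2`. CHA with `S = n.primeFactors` (`∏ p^k = n`): `n ≤ N R n ≤ (N R)^(6^R) ≤ T^(2 * 6^R)`. SIZ: `T^Om < 2^Om n ≤ 2^Om T^(2*6^R)`;
squared, with `2^(2 Om) = 4^Om ≤ T^Om`: `T^(2 Om) < T^Om * T^(4 * 6^R)`, so `Om < 4 * 6^R`. Then `T ≤ 2^Om < 2^(4 * 6^R)` and `n ≤ T^(2*6^R) < 2^(8 * 6^R * 6^R)`. -/
def S_AAA : Prop := ∀ n : ℕ, 0 < n → a n = n →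
  Om n < 4 * 6 ^ n.primeFactors.card ∧ n < 2 ^ (8 * 36 ^ n.primeFactors.card)

/-! ## Part B: the number of fixed points up to `x` -/

/-- CLO. Deliver `theorem t : S_CLO`.
Proof. Put `A = ∏_K G`, `A' = ∏_{S \ K} G`, `P = ∏_K p^k`, `P' = ∏_{S \ K} p^k`, so `A A' = N P P'`. If no `p ∈ S \ K` divides `A` then `A` is coprime to `P'`, so `P' ∣ A'`, `A' = P' d` and `A d = N P`.
With `t = ∏_K (k+1)`, `t' = ∏_{S \ K} (k+1)` (`t t' = T`): `G_lower` gives `A' > t' P'` (as `S \ K` is nonempty), so `d ≥ t' + 1`, and `A > t P`, so `N P = A d > t P (t' + 1) = (T + t) P`,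
`T + 1 = N > T + t ≥ T + 2`, contradiction. (`K` nonempty is used for `A > t P` and `t ≥ 2`.) -/
def S_CLO : Prop := ∀ n : ℕ, 0 < n → a n = n → ∀ K ⊆ n.primeFactors, K.Nonempty →
  K ≠ n.primeFactors → ∃ p ∈ n.primeFactors \ K, p ∣ ∏ q ∈ K, G q (n.factorization q)

/-- MIN. Deliver `theorem t : S_MIN`.
Proof. Suppose `p > (T+1) R = B` for all `p ∈ S`. `(p-1) G p k ≤ (k+1) p^(k+1)` (`(p-1) ∑ (j+1) p^j = (k+1) p^(k+1) - ∑_{j≤k} p^j`), so `∏ (p-1) * N n ≤ T * ∏ p * n`, that is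
`∏ (1 - 1/p) ≤ T/(T+1)`. But `∏ (1 - 1/p) ≥ 1 - ∑ 1/p > 1 - R/B = 1 - 1/(T+1)`. Contradiction. (`n.minFac` is the least prime factor; `S` is nonempty because `a 1 = 0`.) -/
def S_MIN : Prop := ∀ n : ℕ, 0 < n → a n = n →
  n.minFac ≤ (n.divisors.card + 1) * n.primeFactors.card

/-- OFC. The number of ordered factorizations. Deliver `theorem t : S_OFC`.
Proof. Strong induction on `t`. `t = 1`: only the empty list (a nonempty one has product `≥ 2`). `t ≥ 2`: the list is not empty; `x :: l'` has `x ∣ t`, `2 ≤ x`, `l'.prod = t / x`, so the set is contained in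
the union over the divisors `x ≥ 2` of `t` of the images of the sets of `t / x`, and its size is `≤ ∑_{2 ≤ x ≤ t} (t/x)^2 ≤ t^2 ∑_{2 ≤ x ≤ t} 1/x^2 ≤ t^2 (1 - 1/t) ≤ t^2`, by `1/x^2 ≤ 1/(x-1) - 1/x`. -/
def S_OFC : Prop := ∀ t : ℕ, 1 ≤ t →
  {l : List ℕ | (∀ x ∈ l, 2 ≤ x) ∧ l.prod = t}.Finite ∧
  {l : List ℕ | (∀ x ∈ l, 2 ≤ x) ∧ l.prod = t}.ncard ≤ t ^ 2

/-- The order in which the prime factors of `n` are discovered: the least one first, then always
the least new prime factor of `n` that divides the product of the `G` of the known ones. -/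
def IsOrd (n : ℕ) (q : ℕ → ℕ) : Prop :=
  q 0 = n.minFac ∧ (∀ j < n.primeFactors.card, q j ∈ n.primeFactors) ∧
  (∀ j < n.primeFactors.card, ∀ i < j, q i ≠ q j) ∧
  ∀ j < n.primeFactors.card, 1 ≤ j →
    q j ∣ ∏ i ∈ range j, G (q i) (n.factorization (q i)) ∧
    ∀ p ∈ n.primeFactors, (∀ i < j, p ≠ q i) →
      p ∣ ∏ i ∈ range j, G (q i) (n.factorization (q i)) → q j ≤ p

/-- ORD. Deliver `theorem t : S_CLO → S_ORD`.
Proof. Construct `q` by (strong) recursion: `q 0 = n.minFac`, `q j` = the least element of the set of the `p ∈ S \ image q (range j)` with `p ∣ ∏_{i<j} G (q i) ..`. As long as `j < R`,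
the set `K = image q (range j)` is a nonempty proper subset of `S` (it has at most `j < R` elements), so CLO shows that the set is nonempty; the `q i` (`i < j`) are different, so
`∏_{p ∈ K} = ∏_{i<j}` (`prod_image`). (One way: prove by induction on `m ≤ R` that there is `q : ℕ → ℕ` with the properties for all `j < m`, extending by `Function.update`.) -/
def S_ORD : Prop := ∀ n : ℕ, 0 < n → a n = n → ∃ q : ℕ → ℕ, IsOrd n q

/-- UNI. Deliver `theorem t : S_SIZ → S_UNI`.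
Proof. By strong induction on `j < R`: `q j = q' j`. `j = 0`: `q 0 = minFac n = minFac n' = q' 0`. `j ≥ 1`: by induction the products `D = ∏_{i<j} G (q i) ..` for `n` and `n'` are equal. Claim: `q j ∈ n'.primeFactors`.
`q j ∣ D ∣ ∏_{n'.primeFactors} G = n' (T+1)` (`prod_eq`; `q'` is injective below `R` with values in `n'.primeFactors`). If `q j ∣ n'` fine. Otherwise `q j ∣ T + 1`, and `T < 2 q j` (SIZ), so `T + 1 ≤ 2 q j` and
`T + 1 = q j` or `T + 1 = 2 q j`. In the first case `T + 1 ∣ n`, so `T + 1 ∣ n'`; in the second `(T+1)/2 = q j ∣ n`, so `q j ∣ n'`. So `q j ∈ n'.primeFactors`, it is different from `q' i = q i` (`i < j`) and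
divides `D`, hence `q' j ≤ q j` by minimality. By symmetry equality. Then both sets of prime factors are the image of `range R` under `q` (injective, cardinality), the exponents agree, and
`n = ∏ p^k = n'` (`Nat.factorization_prod_pow_eq_self` / `Nat.eq_of_factorization_eq`). -/
def S_UNI : Prop := ∀ n n' : ℕ, 0 < n → a n = n → 0 < n' → a n' = n' →
  n.divisors.card = n'.divisors.card → n.primeFactors.card = n'.primeFactors.card →
  n.minFac = n'.minFac → ((n.divisors.card + 1 ∣ n) ↔ (n.divisors.card + 1 ∣ n')) →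
  (((n.divisors.card + 1) / 2 ∣ n) ↔ ((n.divisors.card + 1) / 2 ∣ n')) →
  ∀ q q' : ℕ → ℕ, IsOrd n q → IsOrd n' q' →
  (∀ j < n.primeFactors.card, n.factorization (q j) = n'.factorization (q' j)) → n = n'

/-- PTC. Deliver `theorem t : S_SIZ → S_MIN → S_OFC → S_ORD → S_UNI → S_PTC`.
Proof. Choose `q n` by ORD for every fixed point and map `n` to `(n.minFac, (List.range R).map (fun j => k (q n j) + 1), decide (t+1 ∣ n), decide ((t+1)/2 ∣ n))`. The map is injective on the set by UNI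
(the length of the list is `R`). The list has entries `≥ 2` (`k ≥ 1` on prime factors) and product `∏_{p ∈ S} (k p + 1) = t` (`q n` is a bijection from `range R` onto `S`), so there are at most `t^2` lists (OFC);
`minFac ≤ (t+1) R` with `2 R ≤ 2^R ≤ t`, so `1 ≤ minFac ≤ (t+1) t / 2 ≤ t^2`; the two bits give 4. For `t` without fixed points the bound is trivial. -/
def S_PTC : Prop := ∀ t : ℕ, {n : ℕ | 0 < n ∧ a n = n ∧ n.divisors.card = t}.Finite ∧
  {n : ℕ | 0 < n ∧ a n = n ∧ n.divisors.card = t}.ncard ≤ 4 * t ^ 4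

/-- BBB. Deliver `theorem t : S_SIZ → S_PTC → S_BBB`.
Proof. Let `n ≤ x` be a fixed point, `T` its number of divisors, `T ≥ 4`. By SIZ `T ≤ 2^Om` and `(T/2)^Om < n`, so with `y = logb 2 T ≤ Om`: `(T/2)^y < x`, `y (y - 1) < logb 2 x`, `(y-1)^2 < logb 2 x`,
`y < 1 + √(logb 2 x)`, `T < Z := 2 * 2^√(logb 2 x)`. So the number of fixed points up to `x` is at most `∑_{1 ≤ t < Z} 4 t^4 ≤ 4 Z^5 = 128 * 2^(5 √(logb 2 x))`. (`x = 0`: the set is empty.) -/
def S_BBB : Prop := ∀ x : ℕ, (((Icc 1 x).filter fun n => a n = n).card : ℝ) ≤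
  128 * 2 ^ (5 * √(Real.logb 2 x))

end Pool.Agent.Helper84.FP
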