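import Pool.Agent.Helper84.FP.Goals
import Pool.Agent.Helper88.FQ.SIZ
import Pool.Agent.Helper81.FQ.GAP
import Pool.Agent.Helper24.FQ.CHA
import Pool.Agent.Helper37.FQ.AAA
import Pool.Agent.Helper20.FQ.CLO
import Pool.Agent.Helper60.FQ.MIN
import Pool.Agent.Helper57.FQ.OFC
import Pool.Agent.Helper31.FQ.ORD
import Pool.Agent.Helper59.FQ.UNI
import Pool.Agent.Helper7.FQ.PTC
import Pool.Agent.Helper79.FQ.BBB

/-!
# Fixed points: bounded in terms of omega, and very rare (assembly)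
-/

set_option autoImplicit false

namespace Pool.Agent.Helper84.FP

open Finset Pool.Agent.Helper91.FP

theorem siz : S_SIZ := Pool.Agent.Helper88.FQ.SIZ.t

theorem cha : S_CHA := Pool.Agent.Helper24.FQ.CHA.t Pool.Agent.Helper81.FQ.GAP.t

theorem aaa : S_AAA := Pool.Agent.Helper37.FQ.AAA.t siz cha

theorem ord : S_ORD := Pool.Agent.Helper31.FQ.ORD.t Pool.Agent.Helper20.FQ.CLO.t

theorem uni : S_UNI := Pool.Agent.Helper59.FQ.UNI.t siz

theorem ptc : S_PTC := Pool.Agent.Helper7.FQ.PTC.t siz Pool.Agent.Helper60.FQ.MIN.t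
  Pool.Agent.Helper57.FQ.OFC.t ord uni

theorem bbb : S_BBB := Pool.Agent.Helper79.FQ.BBB.t siz ptc

end Pool.Agent.Helper84.FP
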